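import Pool.Agent.Helper83.FT.Block

/-!
# Rémond's inequality in the strong form for zeros of polynomials with few terms, all groups `Γ`

Let `F` be any field of algebraic numbers which contains all roots of unity, for example
`F = ℚ(Γ_div)` for any group `Γ` of nonzero algebraic numbers. Let `α ≠ 0` be an algebraic number and
let `g` be a nonzero polynomial over `F` with `k` terms and `g(α) = 0`. With `R = k! k²` and
`c_k = log (1 + 1 / k!) / (k² k! (k!)!)` one of the following holds.

(i) `h(α / γ) ≥ c_k / deg g` for all `γ ≠ 0` with a positive power in `F`, in particular for all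
`γ ∈ Γ_div`.

(ii) The minimal polynomial of `α` over `F` is a polynomial in `X ^ B` with `R B` at least its degree.

The coefficients of `g` are arbitrary, and the constants depend on `k` only. If `g` is the minimal
polynomial of `α` over `F = ℚ(Γ_div)`, of degree `D = D_Γ(α)`, then (i) is Rémond's inequality in the
strong form, with an absolute constant for every `k`; so it holds for all groups `Γ` and all `α` whose
minimal polynomial over `ℚ(Γ_div)` has `k` terms and exponents with greatest common divisor less than
`D / (k! k²)` (`remond`), for example for `X ^ D + a X ^ m + b` with `gcd (D, m) < D / 54`.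

## Idea

Let `σ_1, …, σ_k` be automorphisms over `F` and let `e_i` be the exponents of `g`. If the height of
`α / γ` is small then the determinants of the `σ_r(α) ^ (m e_i)` vanish for all exponents
`m = 1 + j (k!)!`, `0 ≤ j < k!`: the prime factors of these numbers are larger than `k!`, and for a
prime `p > k!` the determinant of the `p`-th powers of the entries is `0` modulo `p` if the
determinant of the entries is `0` (the height inequality `det_height` of a starting file). By a
Vandermonde argument over the `k!` permutations, for every choice of the `σ_r` there is a permutation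
`π ≠ 1` such that the product of the `σ_r(α) ^ (e_(π r) - e_r)` is a root of unity. If `α` had more than
`k! k²` conjugates over `F` up to roots of unity, one could choose `k!` automorphisms which are
different up to roots of unity (no group is the union of few cosets of subgroups of large index), and
two choices of the `σ_r` with the same `π` which differ in one place moved by `π`: a contradiction.
-/

set_option autoImplicit false

namespace Pool.Agent.Results.MP_f61260_nt.FewTerms

open Polynomial
open Pool.Agent.Helper83.FT

/-- **Theorem.** Let `F` be a subfield of `ℚ̄` which contains all roots of unity, let `α ≠ 0` be an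
algebraic number and let `g` be a nonzero polynomial over `F` with `g(α) = 0`. Let `k` be the number
of its nonzero terms. Then

* the height of `α / γ` is at least `log (1 + 1 / k!) / (k² k! (k!)! deg g)` for all `γ ≠ 0` with a
  positive power in `F`, or
* for some positive integer `B` all exponents of the minimal polynomial of `α` over `F` are divisible
  by `B` and its degree is at most `k! k² B`. -/
theorem result (F : IntermediateField ℚ (AlgebraicClosure ℚ))
    (hF : ∀ (n : ℕ) (ζ : AlgebraicClosure ℚ), 0 < n → ζ ^ n = 1 → ζ ∈ F)
    (α : AlgebraicClosure ℚ) (hα : α ≠ 0) (g : F[X]) (hg : g ≠ 0) (hgα : aeval α g = 0) :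
    (∀ (γ : AlgebraicClosure ℚ) (m : ℕ), γ ≠ 0 → 0 < m → γ ^ m ∈ F →
      Real.log (1 + 1 / (g.support.card.factorial : ℝ)) /
        ((g.support.card : ℝ) ^ 2 * (g.support.card.factorial *
          g.support.card.factorial.factorial) * g.natDegree) ≤
        NumberField.absLogHeight₁ (α / γ)) ∨
    ∃ B : ℕ, 0 < B ∧ (∀ i ∈ (minpoly F α).support, B ∣ i) ∧
      (minpoly F α).natDegree ≤ g.support.card.factorial * g.support.card ^ 2 * B := by
  have hF' : ∀ x : Pool.Agent.H58P.Qb, Pool.Agent.W237.RK.Tor x → x ∈ F := by
    rintro x ⟨n, hn, hx⟩
    exact hF n x hn hx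
  rcases few_terms F hF' α hα g hg hgα with h | ⟨h1, h2⟩
  · left
    intro γ m hγ hm hγm
    rw [Pool.Agent.H58P.absLogHeight₁_eq]
    have key := h γ hγ (fun σ => ⟨m, hm, by
      rw [div_pow, ← map_pow, σ.2 _ hγm, div_self (pow_ne_zero _ hγ)]⟩)
    have hdeg : 0 < g.natDegree := by
      rw [Nat.pos_iff_ne_zero]
      intro h0
      obtain ⟨c, hc⟩ := natDegree_eq_zero.1 h0
      rw [← hc, aeval_C] at hgα
      have : c = 0 := (map_eq_zero _).1 hgα
      exact hg (by rw [← hc, this, map_zero])
    have hk : 0 < g.support.card := Finset.card_pos.2 (nonempty_support_iff.2 hg)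
    have hkR : (0 : ℝ) < g.support.card := by exact_mod_cast hk
    have hdR : (0 : ℝ) < g.natDegree := by exact_mod_cast hdeg
    unfold dl at key
    rw [div_le_iff₀ (by positivity)] at key
    rw [div_le_iff₀ (by positivity)]
    have h3 : ((g.support.card.factorial : ℝ) + 1) / g.support.card.factorial =
        1 + 1 / (g.support.card.factorial : ℝ) := by
      field_simp
    rw [h3] at key
    refine key.trans (le_of_eq ?_)
    ring
  · right
    obtain ⟨B, hB, hB1, hB2, -⟩ := block F hF' α hα h1
    refine ⟨B, hB, hB1, ?_⟩
    rw [← Pool.Agent.W237.RK.orb_ncard]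
    exact hB2.trans (Nat.mul_le_mul_right _ h2)

/-- `β` lies in the division group of `Γ` -/
def InDivisionGroup (Γ : Subgroup (AlgebraicClosure ℚ)ˣ) (β : AlgebraicClosure ℚ) : Prop :=
  ∃ n : ℕ, 0 < n ∧ ∃ g ∈ Γ, β ^ n = (g : AlgebraicClosure ℚ)

/-- the field generated by the division group of `Γ` -/
noncomputable def divisionField (Γ : Subgroup (AlgebraicClosure ℚ)ˣ) :
    IntermediateField ℚ (AlgebraicClosure ℚ) :=
  IntermediateField.adjoin ℚ {y | InDivisionGroup Γ y}

/-- Rémond's inequality in the strong form, also for the quotients `α / γ` with `γ` in the division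
group, for all groups `Γ` and all `α` whose minimal polynomial over `ℚ(Γ_div)` has `k` terms, provided
that no `B ≥ D / (k! k²)` divides all its exponents -/
theorem remond (Γ : Subgroup (AlgebraicClosure ℚ)ˣ) (α : AlgebraicClosure ℚ) (hα : α ≠ 0) (k : ℕ)
    (hk : (minpoly (divisionField Γ) α).support.card = k)
    (hB : ∀ B : ℕ, (∀ i ∈ (minpoly (divisionField Γ) α).support, B ∣ i) →
      k.factorial * k ^ 2 * B < (minpoly (divisionField Γ) α).natDegree)
    (γ : AlgebraicClosure ℚ) (hγ : γ ≠ 0) (hγΓ : InDivisionGroup Γ γ) :
    Real.log (1 + 1 / (k.factorial : ℝ)) / ((k : ℝ) ^ 2 * (k.factorial * k.factorial.factorial) *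
      (minpoly (divisionField Γ) α).natDegree) ≤ NumberField.absLogHeight₁ (α / γ) := by
  subst hk
  have halg : IsIntegral (divisionField Γ) α := (Pool.Agent.H58P.qb_isIntegral α).tower_top
  rcases result (divisionField Γ) (fun n ζ hn hζ => IntermediateField.subset_adjoin ℚ _
    ⟨n, hn, 1, one_mem Γ, by rw [hζ, Units.val_one]⟩) α hα _ (minpoly.ne_zero halg)
    (minpoly.aeval _ α) with h | ⟨B, hB0, hB1, hB2⟩
  · exact h γ 1 hγ one_pos (by
      rw [pow_one]
      exact IntermediateField.subset_adjoin ℚ _ hγΓ)
  · exact absurd hB2 (not_le.2 (hB B hB1))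

end Pool.Agent.Results.MP_f61260_nt.FewTerms
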