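import Pool.Agent.Helper83.FT.Block
import Pool.Agent.Results.MP_f61260_nt.SmoothRootsPoly

/-!
# Rémond's inequality in the strong form for zeros of polynomials with few terms

All fields are subfields of `AlgebraicClosure ℚ`; subgroups of the multiplicative group are
subgroups of the unit group of `AlgebraicClosure ℚ`.

Let `K` be a number field, `Γ` a finitely generated group of nonzero algebraic numbers and `P` a
finite set of primes, and let `E` be the field generated over `K` by all roots of unity and all `n`-th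
roots of elements of `Γ` for the products `n` of primes of `P` (for instance `E = ℚ(μ_∞)`). For every
`k` and `δ` there is `c > 0` such that `h(α / γ) ≥ c / deg g` for every nonzero polynomial `g` with `k`
terms and coefficients in an extension of degree at most `δ` of `E`, every zero `α ≠ 0` of `g` outside
the division group of `Γ`, and all `γ ∈ Γ_div`; `c` is explicit in terms of `k`, `δ` and a constant
which depends on `K`, `Γ` and `P` only.

If `g` is the minimal polynomial of `α` over `ℚ(Γ_div)` then this is Rémond's inequality in the strong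
form (`remond`). In particular (`relative_lehmer`) the relative Lehmer inequality
`h(α) ≥ c_k / [ℚ(μ_∞)(α) : ℚ(μ_∞)]`, which is Rémond's inequality for `Γ = 1`, holds for all `α`, not
roots of unity, whose minimal polynomial over `ℚ(μ_∞)` has `k` terms.

## Idea

By the method of `FewTerms` (determinants of powers of conjugates, a Vandermonde argument, and a
pigeonhole argument in the Galois group), if the height of `α / γ` is less than `c_k / deg g` then
`α ^ B`, for some `B ≤ deg g`, has degree at most `k! k²` over the field of the coefficients. Then the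
height of `α ^ B / γ ^ B` is bounded from below by the starting file `SmoothRootsPoly`.
-/

set_option autoImplicit false

namespace Pool.Agent.Results.MP_f61260_nt.FewTermsSmooth

open Polynomial
open Pool.Agent.Helper83.FT
open Pool.Agent.Results.MP_f61260_nt.SmoothRootsPoly (InDivisionGroup smoothRootField)

/-- the constant `log (1 + 1 / k!) / (k² k! (k!)!)` -/
noncomputable def termConst (k : ℕ) : ℝ :=
  Real.log (1 + 1 / (k.factorial : ℝ)) / ((k : ℝ) ^ 2 * (k.factorial * k.factorial.factorial))

lemma termConst_pos {k : ℕ} (hk : 0 < k) : 0 < termConst k := by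
  unfold termConst
  apply div_pos
  · apply Real.log_pos
    have : (0 : ℝ) < 1 / (k.factorial : ℝ) := by positivity
    linarith
  · positivity

open Pool.Agent.W237.RK Pool.Agent.TH53.BL in
/-- degrees in towers -/
lemma orb_tower (E : GF) (M : IntermediateField E Pool.Agent.H58P.Qb) [FiniteDimensional E M]
    (x : Pool.Agent.H58P.Qb) :
    (orb E x).ncard ≤ Module.finrank E M * (orb (M.restrictScalars ℚ) x).ncard := by
  classical
  let r : fixG E → (M →ₐ[E] Pool.Agent.H58P.Qb) := fun σ =>
    { toFun := fun y => σ.1 (y : Pool.Agent.H58P.Qb)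
      map_one' := by simp
      map_mul' := fun a b => by simp
      map_zero' := by simp
      map_add' := fun a b => by simp
      commutes' := fun c => σ.2 _ c.2 }
  let s : (M →ₐ[E] Pool.Agent.H58P.Qb) → Set Pool.Agent.H58P.Qb := fun φ =>
    {y | ∃ σ : fixG E, r σ = φ ∧ σ.1 x = y}
  have hs : ∀ φ, (s φ).ncard ≤ (orb (M.restrictScalars ℚ) x).ncard := by
    intro φ
    by_cases hne : ∃ σ : fixG E, r σ = φ
    · obtain ⟨σ₀, hσ₀⟩ := hne
      have hsub : s φ ⊆ σ₀.1 '' orb (M.restrictScalars ℚ) x := by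
        rintro _ ⟨σ, hσ, rfl⟩
        refine ⟨(σ₀.1⁻¹ * σ.1) x, ⟨σ₀.1⁻¹ * σ.1, ?_, rfl⟩, ?_⟩
        · intro y hy
          have h1 : σ.1 y = σ₀.1 y := by
            have := DFunLike.congr_fun (hσ.trans hσ₀.symm) (⟨y, hy⟩ : M)
            exact this
          rw [AlgEquiv.mul_apply, h1, inv_apply_self]
        · rw [AlgEquiv.mul_apply, apply_inv_self]
      refine (Set.ncard_le_ncard hsub ((orb_finite _ x).image _)).trans ?_
      exact Set.ncard_image_le (orb_finite _ x)
    · have : s φ = ∅ := by
        rw [Set.eq_empty_iff_forall_notMem]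
        rintro y ⟨σ, hσ, -⟩
        exact hne ⟨σ, hσ⟩
      rw [this, Set.ncard_empty]
      exact Nat.zero_le _
  have hfin : ∀ φ, (s φ).Finite := by
    intro φ
    apply (orb_finite E x).subset
    rintro _ ⟨σ, -, rfl⟩
    exact ⟨σ.1, σ.2, rfl⟩
  have hcover : orb E x ⊆ ⋃ φ ∈ (Finset.univ : Finset (M →ₐ[E] Pool.Agent.H58P.Qb)), s φ := by
    rintro _ ⟨σ, hσ, rfl⟩
    simp only [Finset.mem_univ, Set.iUnion_true, Set.mem_iUnion]
    exact ⟨r ⟨σ, hσ⟩, ⟨σ, hσ⟩, rfl, rfl⟩
  calc (orb E x).ncard ≤ (⋃ φ ∈ (Finset.univ : Finset (M →ₐ[E] Pool.Agent.H58P.Qb)), s φ).ncard := by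
        refine Set.ncard_le_ncard hcover ?_
        exact Set.Finite.biUnion (Finset.finite_toSet _) fun φ _ => hfin φ
    _ ≤ ∑ φ ∈ (Finset.univ : Finset (M →ₐ[E] Pool.Agent.H58P.Qb)), (s φ).ncard :=
        Finset.set_ncard_biUnion_le _ _
    _ ≤ ∑ φ ∈ (Finset.univ : Finset (M →ₐ[E] Pool.Agent.H58P.Qb)),
          (orb (M.restrictScalars ℚ) x).ncard :=
        Finset.sum_le_sum fun φ _ => hs φ
    _ = Module.finrank E M * (orb (M.restrictScalars ℚ) x).ncard := by
        rw [Finset.sum_const, Finset.card_univ, AlgHom.card, smul_eq_mul]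

open Pool.Agent.W237.RK Pool.Agent.TH53.BL in
/-- the theorem for a field `F` between `E` and `ℚ̄` -/
lemma core (E F : GF) (hEF : E ≤ F) (htor : ∀ x : Pool.Agent.H58P.Qb, Tor x → x ∈ E)
    (Γ : Subgroup (AlgebraicClosure ℚ)ˣ) (hΓE : ∀ u ∈ Γ, (u : AlgebraicClosure ℚ) ∈ E)
    (A : ℕ) (hA : 0 < A)
    (hmain : ∀ α : AlgebraicClosure ℚ, α ≠ 0 → ¬ InDivisionGroup Γ α →
      ∀ γ : AlgebraicClosure ℚ, InDivisionGroup Γ γ →
        1 / ((A : ℝ) * ((minpoly E α).natDegree : ℝ) ^ A) ≤ NumberField.absLogHeight₁ (α / γ))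
    (δ : ℕ) (hδ : ∀ x, (orb E x).ncard ≤ δ * (orb F x).ncard)
    (g : (AlgebraicClosure ℚ)[X]) (hg : g ≠ 0) (hgF : ∀ i, g.coeff i ∈ F)
    (α : AlgebraicClosure ℚ) (hα : α ≠ 0) (hnd : ¬ InDivisionGroup Γ α) (hgα : g.eval α = 0)
    (γ : AlgebraicClosure ℚ) (hγ : InDivisionGroup Γ γ) :
    min (termConst g.support.card)
      (1 / ((A : ℝ) * ((δ : ℝ) * (g.support.card.factorial * g.support.card ^ 2)) ^ A)) ≤
      g.natDegree * NumberField.absLogHeight₁ (α / γ) := by
  have hγ0 : γ ≠ 0 := by
    obtain ⟨n, hn, u, -, h1⟩ := hγ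
    rintro rfl
    rw [zero_pow hn.ne'] at h1
    exact u.ne_zero h1.symm
  -- the polynomial over `F`
  obtain ⟨G, hG⟩ : ∃ G : F[X], G.map (algebraMap F (AlgebraicClosure ℚ)) = g := by
    have h1 : g ∈ Polynomial.lifts (algebraMap F (AlgebraicClosure ℚ)) := by
      rw [Polynomial.lifts_iff_coeff_lifts]
      exact fun i => ⟨⟨g.coeff i, hgF i⟩, rfl⟩
    exact (Polynomial.mem_lifts _).1 h1
  have hinj : Function.Injective (algebraMap F (AlgebraicClosure ℚ)) :=
    (algebraMap F (AlgebraicClosure ℚ)).injective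
  have hG0 : G ≠ 0 := by
    rintro rfl
    exact hg (by rw [← hG, Polynomial.map_zero])
  have hGs : G.support.card = g.support.card := by
    rw [← hG, Polynomial.support_map_of_injective _ hinj]
  have hGd : G.natDegree = g.natDegree := by
    rw [← hG, Polynomial.natDegree_map]
  have hGα : aeval α G = 0 := by
    rw [← hgα, ← hG, Polynomial.eval_map_algebraMap]
  have hk : 0 < g.support.card := Finset.card_pos.2 (nonempty_support_iff.2 hg)
  rw [Pool.Agent.H58P.absLogHeight₁_eq]
  rcases few_terms F (fun x hx => hEF (htor x hx)) α hα G hG0 hGα with h | ⟨h1, h2⟩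
  · -- the first case
    refine (min_le_left _ _).trans ?_
    have key := h γ hγ0 (fun σ => by
      obtain ⟨n, hn, u, hu, hn1⟩ := hγ
      exact ⟨n, hn, by
        rw [div_pow, ← map_pow, hn1, σ.2 _ (hEF (hΓE u hu)), div_self]
        exact Units.ne_zero u⟩)
    rw [hGs, hGd] at key
    have hkR : (0 : ℝ) < g.support.card := by exact_mod_cast hk
    unfold dl at key
    unfold termConst
    rw [div_le_iff₀ (by positivity)] at key
    rw [div_le_iff₀ (by positivity)]
    have h3 : ((g.support.card.factorial : ℝ) + 1) / g.support.card.factorial =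
        1 + 1 / (g.support.card.factorial : ℝ) := by
      field_simp
    rw [h3] at key
    refine key.trans (le_of_eq ?_)
    ring
  · -- the second case
    refine (min_le_right _ _).trans ?_
    obtain ⟨B, hB, hB1, hB2, hB3⟩ := block F (fun x hx => hEF (htor x hx)) α hα h1
    rw [hGs] at h2
    have halgF : IsIntegral F α := (Pool.Agent.H58P.qb_isIntegral α).tower_top
    -- `B` is at most the degree of `g`
    have hBdeg : B ≤ g.natDegree := by
      have h4 : (minpoly F α).natDegree ≤ G.natDegree :=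
        Polynomial.natDegree_le_of_dvd (minpoly.dvd F α hGα) hG0
      have h5 : B ∣ (minpoly F α).natDegree :=
        hB1 _ (natDegree_mem_support_of_nonzero (minpoly.ne_zero halgF))
      rw [← hGd]
      exact (Nat.le_of_dvd (minpoly.natDegree_pos halgF) h5).trans h4
    have hpow0 : α ^ B ≠ 0 := pow_ne_zero _ hα
    have hndB : ¬ InDivisionGroup Γ (α ^ B) := by
      rintro ⟨n, hn, u, hu, h3⟩
      exact hnd ⟨B * n, Nat.mul_pos hB hn, u, hu, by rw [pow_mul, h3]⟩
    have hγB : InDivisionGroup Γ (γ ^ B) := by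
      obtain ⟨n, hn, u, hu, h3⟩ := hγ
      exact ⟨n, hn, u ^ B, pow_mem hu B, by
        rw [← pow_mul, mul_comm, pow_mul, h3, Units.val_pow_eq_pow_val]⟩
    have key := hmain (α ^ B) hpow0 hndB (γ ^ B) hγB
    rw [Pool.Agent.H58P.absLogHeight₁_eq, ← div_pow, Pool.Agent.H58B.ht_pow] at key
    -- the degree of the power
    have hdeg : (minpoly E (α ^ B)).natDegree ≤
        δ * (g.support.card.factorial * g.support.card ^ 2) := by
      rw [← orb_ncard]
      exact (hδ (α ^ B)).trans (Nat.mul_le_mul_left _ (hB3.trans h2))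
    have hdeg0 : 0 < (minpoly E (α ^ B)).natDegree :=
      minpoly.natDegree_pos (Pool.Agent.H58P.qb_isIntegral (α ^ B)).tower_top
    have hdR : (0 : ℝ) < (minpoly E (α ^ B)).natDegree := by exact_mod_cast hdeg0
    have hdeg' : ((minpoly E (α ^ B)).natDegree : ℝ) ≤
        (δ : ℝ) * (g.support.card.factorial * g.support.card ^ 2) := by
      exact_mod_cast hdeg
    have hAR : (0 : ℝ) < A := by exact_mod_cast hA
    calc 1 / ((A : ℝ) * ((δ : ℝ) * (g.support.card.factorial * g.support.card ^ 2)) ^ A)
        ≤ 1 / ((A : ℝ) * ((minpoly E (α ^ B)).natDegree : ℝ) ^ A) := by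
          apply one_div_le_one_div_of_le (by positivity)
          apply mul_le_mul_of_nonneg_left _ hAR.le
          exact pow_le_pow_left₀ hdR.le hdeg' A
      _ ≤ B * Pool.Agent.H58P.ht (α / γ) := key
      _ ≤ g.natDegree * Pool.Agent.H58P.ht (α / γ) := by
          apply mul_le_mul_of_nonneg_right _ (Pool.Agent.H58R.ht_nonneg _)
          exact_mod_cast hBdeg

lemma torsion_mem (K : IntermediateField ℚ (AlgebraicClosure ℚ))
    (Γ : Subgroup (AlgebraicClosure ℚ)ˣ) (P : Finset ℕ) (x : AlgebraicClosure ℚ)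
    (h : ∃ n : ℕ, 0 < n ∧ x ^ n = 1) : x ∈ smoothRootField K Γ P := by
  unfold smoothRootField
  exact (le_sup_right : IntermediateField.adjoin ℚ _ ≤ _)
    (IntermediateField.subset_adjoin _ _ (Or.inl h))

lemma group_mem (K : IntermediateField ℚ (AlgebraicClosure ℚ))
    (Γ : Subgroup (AlgebraicClosure ℚ)ˣ) (P : Finset ℕ) (u : (AlgebraicClosure ℚ)ˣ) (hu : u ∈ Γ) :
    (u : AlgebraicClosure ℚ) ∈ smoothRootField K Γ P := by
  unfold smoothRootField
  exact (le_sup_right : IntermediateField.adjoin ℚ _ ≤ _)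
    (IntermediateField.subset_adjoin _ _
      (Or.inr ⟨1, ⟨one_pos, fun q hq h1 => absurd (Nat.dvd_one.1 h1) hq.one_lt.ne'⟩, u, hu,
        pow_one _⟩))

/-- **Theorem.** Let `K` be a number field, `Γ` a finitely generated subgroup of `ℚ̄*` and `P` a finite
set of primes, and let `E` be the field generated over `K` by all roots of unity and by all `n`-th
roots of all elements of `Γ`, for all products `n` of primes of `P`. There is a positive integer `A`,
depending only on `K`, `Γ` and `P`, such that the following holds. Let `M` be an extension of degree at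
most `δ` of `E`, let `g` be a nonzero polynomial with coefficients in `M` and `k` terms, and let `α ≠ 0`
be a zero of `g` which does not lie in the division group of `Γ`. Then for every `γ` in the division
group of `Γ` (for example `γ = 1`), `deg g` times the height of `α / γ` is at least the minimum of
`log (1 + 1 / k!) / (k² k! (k!)!)` and `1 / (A (δ k! k²) ^ A)`. -/
theorem result :
    ∀ (K : IntermediateField ℚ (AlgebraicClosure ℚ)), FiniteDimensional ℚ K →
    ∀ (Γ : Subgroup (AlgebraicClosure ℚ)ˣ), Γ.FG →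
    ∀ (P : Finset ℕ), (∀ p ∈ P, p.Prime) →
      ∃ A : ℕ, 0 < A ∧
        ∀ (δ : ℕ) (M : IntermediateField (smoothRootField K Γ P) (AlgebraicClosure ℚ)),
          FiniteDimensional (smoothRootField K Γ P) M →
          Module.finrank (smoothRootField K Γ P) M ≤ δ →
          ∀ g : (AlgebraicClosure ℚ)[X], g ≠ 0 → (∀ i, g.coeff i ∈ M) →
          ∀ α : AlgebraicClosure ℚ, α ≠ 0 → ¬ InDivisionGroup Γ α → g.eval α = 0 →
          ∀ γ : AlgebraicClosure ℚ, InDivisionGroup Γ γ →
            min (termConst g.support.card)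
              (1 / ((A : ℝ) * ((δ : ℝ) * (g.support.card.factorial * g.support.card ^ 2)) ^ A)) ≤
              g.natDegree * NumberField.absLogHeight₁ (α / γ) := by
  intro K hK Γ hΓ P hP
  obtain ⟨A, hA, hmain⟩ := SmoothRootsPoly.result K hK Γ hΓ P hP
  refine ⟨A, hA, ?_⟩
  intro δ M hM hδ g hg hgM α hα hnd hgα γ hγ
  exact core (smoothRootField K Γ P) (M.restrictScalars ℚ)
    (fun x hx => (M.algebraMap_mem (⟨x, hx⟩ : smoothRootField K Γ P)))
    (fun x hx => torsion_mem K Γ P x hx) Γ (fun u hu => group_mem K Γ P u hu) A hA hmain δ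
    (fun x => (orb_tower _ M x).trans (Nat.mul_le_mul_right _ hδ)) g hg hgM α hα hnd hgα γ hγ

/-- the field generated by the division group of `Γ` -/
noncomputable def divisionField (Γ : Subgroup (AlgebraicClosure ℚ)ˣ) :
    IntermediateField ℚ (AlgebraicClosure ℚ) :=
  IntermediateField.adjoin ℚ {y | InDivisionGroup Γ y}

/-- Rémond's inequality in the strong form: the case that `g` is the minimal polynomial of `α` over
`ℚ(Γ_div)` -/
theorem remond (K : IntermediateField ℚ (AlgebraicClosure ℚ)) (hK : FiniteDimensional ℚ K)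
    (Γ : Subgroup (AlgebraicClosure ℚ)ˣ) (hΓ : Γ.FG) (P : Finset ℕ) (hP : ∀ p ∈ P, p.Prime)
    (k δ : ℕ) : ∃ c : ℝ, 0 < c ∧
      ∀ M : IntermediateField (smoothRootField K Γ P) (AlgebraicClosure ℚ),
        FiniteDimensional (smoothRootField K Γ P) M →
        Module.finrank (smoothRootField K Γ P) M ≤ δ →
        ∀ α : AlgebraicClosure ℚ, α ≠ 0 → ¬ InDivisionGroup Γ α →
        (minpoly (divisionField Γ) α).support.card = k →
        (∀ i, (((minpoly (divisionField Γ) α).coeff i : divisionField Γ) : AlgebraicClosure ℚ) ∈ M) →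
        ∀ γ : AlgebraicClosure ℚ, InDivisionGroup Γ γ →
          c / (minpoly (divisionField Γ) α).natDegree ≤ NumberField.absLogHeight₁ (α / γ) := by
  obtain ⟨A, hA, hmain⟩ := result K hK Γ hΓ P hP
  rcases Nat.eq_zero_or_pos k with hk | hk
  · refine ⟨1, one_pos, ?_⟩
    intro M _ _ α _ _ hs
    have halg : IsIntegral (divisionField Γ) α := (Pool.Agent.H58P.qb_isIntegral α).tower_top
    rw [hk] at hs
    exact absurd (support_eq_empty.1 (Finset.card_eq_zero.1 hs)) (minpoly.ne_zero halg)
  rcases Nat.eq_zero_or_pos δ with hδ0 | hδ0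
  · refine ⟨1, one_pos, ?_⟩
    intro M hM hδ
    exact absurd hδ (not_le.2 (by rw [hδ0]; exact Module.finrank_pos))
  refine ⟨min (termConst k) (1 / ((A : ℝ) * ((δ : ℝ) * (k.factorial * k ^ 2)) ^ A)),
    lt_min (termConst_pos hk) (by positivity), ?_⟩
  intro M hM hδ α hα hnd hs hcoef γ hγ
  have halg : IsIntegral (divisionField Γ) α := (Pool.Agent.H58P.qb_isIntegral α).tower_top
  set f := minpoly (divisionField Γ) α with hf
  have hinj : Function.Injective (algebraMap (divisionField Γ) (AlgebraicClosure ℚ)) :=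
    (algebraMap (divisionField Γ) (AlgebraicClosure ℚ)).injective
  have h := hmain δ M hM hδ (f.map (algebraMap (divisionField Γ) (AlgebraicClosure ℚ)))
    ((Polynomial.map_ne_zero_iff hinj).2 (minpoly.ne_zero halg)) (fun i => by
      rw [Polynomial.coeff_map]
      exact hcoef i) α hα hnd (by
      rw [Polynomial.eval_map_algebraMap]
      exact minpoly.aeval _ α) γ hγ
  rw [Polynomial.support_map_of_injective _ hinj, Polynomial.natDegree_map, hs] at h
  have hd : (0 : ℝ) < f.natDegree := by exact_mod_cast minpoly.natDegree_pos halg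
  rw [div_le_iff₀ hd]
  exact h.trans (le_of_eq (mul_comm _ _))

/-- The case `Γ = 1`: the relative Lehmer inequality for the numbers whose minimal polynomial over
the field generated by all roots of unity has `k` terms -/
theorem relative_lehmer (k : ℕ) : ∃ c : ℝ, 0 < c ∧ ∀ α : AlgebraicClosure ℚ, α ≠ 0 →
    (∀ n : ℕ, 0 < n → α ^ n ≠ 1) →
    (minpoly (IntermediateField.adjoin ℚ {y : AlgebraicClosure ℚ | ∃ n : ℕ, 0 < n ∧ y ^ n = 1})
      α).support.card = k →
    c / (minpoly (IntermediateField.adjoin ℚ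
      {y : AlgebraicClosure ℚ | ∃ n : ℕ, 0 < n ∧ y ^ n = 1}) α).natDegree ≤
      NumberField.absLogHeight₁ α := by
  have hset : {y : AlgebraicClosure ℚ | ∃ n : ℕ, 0 < n ∧ y ^ n = 1} =
      {y | InDivisionGroup ⊥ y} := by
    ext y
    constructor
    · rintro ⟨n, hn, h⟩
      exact ⟨n, hn, 1, one_mem _, by rw [h, Units.val_one]⟩
    · rintro ⟨n, hn, g, hg, h⟩
      rw [Subgroup.mem_bot] at hg
      exact ⟨n, hn, by rw [h, hg, Units.val_one]⟩
  rw [hset]
  obtain ⟨c, hc, h⟩ := remond ⊥ inferInstance ⊥ (⟨∅, by simp⟩ : (⊥ : Subgroup (AlgebraicClosure ℚ)ˣ).FG) ∅ (by simp) k 1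
  refine ⟨c, hc, ?_⟩
  intro α hα hnt hk
  have h1 := h (⊥ : IntermediateField (smoothRootField ⊥ ⊥ ∅) (AlgebraicClosure ℚ)) inferInstance
    (le_of_eq IntermediateField.finrank_bot) α hα (by
      rintro ⟨n, hn, g, hg, h2⟩
      rw [Subgroup.mem_bot] at hg
      exact hnt n hn (by rw [h2, hg, Units.val_one])) hk (fun i => by
      rw [IntermediateField.mem_bot]
      have hle : divisionField ⊥ ≤ smoothRootField ⊥ ⊥ ∅ := by
        rw [divisionField, IntermediateField.adjoin_le_iff]
        rintro y ⟨n, hn, g, hg, h2⟩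
        rw [Subgroup.mem_bot] at hg
        exact torsion_mem ⊥ ⊥ ∅ y ⟨n, hn, by rw [h2, hg, Units.val_one]⟩
      exact ⟨⟨_, hle (SetLike.coe_mem ((minpoly (divisionField ⊥) α).coeff i))⟩, rfl⟩) 1
      ⟨1, one_pos, 1, one_mem _, by rw [one_pow, Units.val_one]⟩
  rw [div_one] at h1
  exact h1

end Pool.Agent.Results.MP_f61260_nt.FewTermsSmooth
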