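import Pool.Agent.Helper42.RD.Fin

/-!
# Rémond's inequality in the strong form for numbers whose conjugates are not equidistributed

Let `F` be any field of algebraic numbers, for example `F = ℚ(Γ_div)` for a group `Γ` of nonzero
algebraic numbers, or a larger field. Let `α ≠ 0` be an algebraic number, let `D` be its degree over
`F`, and let `L` be the field generated over `ℚ` by the `D` conjugates of `α` over `F`. Every
embedding `σ` of `L` in `ℂ` gives `D` complex numbers. We bound the mean, over all `σ`, of the
discrepancy of the arguments of these `D` numbers: it is at most `√D (6 log (2 D) + 3 D h(α))`. The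
sector may depend on `σ`.

So if the mean discrepancy of the arguments of the conjugates over a field `F` which contains
`ℚ(Γ_div)` is at least `7 √D log (2 D)`, then `h(α) ≥ log (2 D) / (3 D)` (`lower`), which is more than
Rémond's strong inequality asks for, because `D ≤ D_Γ(α)` (`remond`). This holds for all groups `Γ`,
with absolute constants. For example, the condition holds if `D ≥ 10⁶` and, for at least half of the
embeddings `σ`, the `D` numbers lie in a half-plane (which may depend on `σ`).

## Idea

For one embedding `σ` the discrepancy is bounded by the method of Erdős and Turán, with the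
Fejér-type kernels of the starting files, in terms of the energy
`∑ log |σ x - σ y|` and of `∑ |log |σ x||`. The sum over `σ` of the energies is bounded by the product
formula in the number field `L` and the heights of the conjugates, which all are equal to `h(α)`.
-/

set_option autoImplicit false

namespace Pool.Agent.Results.MP_f61260_nt.RelativeEquidistribution

open Pool.Agent.Helper42.RD

/-- **Theorem.** Let `F` be a subfield of `ℚ̄`, let `α ≠ 0` be an algebraic number and let `D` be its
degree over `F`. Let `L = conjField F α` be the field generated over `ℚ` by the `D` conjugates of `α`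
over `F`. For every embedding `σ : L → ℂ` let `a σ ≤ arg z ≤ b σ` be a closed sector. Then the mean,
over all `σ`, of the absolute value of the difference between the number of conjugates of `α` over
`F` which `σ` maps to the sector, and `D (b σ - a σ) / (2 π)`, is at most
`√D (6 log (2 D) + 3 D h(α))`. -/
theorem result (F : IntermediateField ℚ (AlgebraicClosure ℚ)) (α : AlgebraicClosure ℚ)
    (hα : α ≠ 0) (a b : (conjField F α →+* ℂ) → ℝ)
    (hab : ∀ σ, a σ ≤ b σ ∧ b σ ≤ a σ + 2 * Real.pi) :
    meanDisc F α a b ≤ Real.sqrt (minpoly F α).natDegree *
      (6 * Real.log (2 * (minpoly F α).natDegree) +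
        3 * ((minpoly F α).natDegree * NumberField.absLogHeight₁ α)) := by
  rw [Pool.Agent.H58P.absLogHeight₁_eq]
  exact meanDisc_le F hα a b hab

/-- the lower bound for the height if the conjugates are not equidistributed -/
theorem lower (F : IntermediateField ℚ (AlgebraicClosure ℚ)) (α : AlgebraicClosure ℚ)
    (hα : α ≠ 0) (a b : (conjField F α →+* ℂ) → ℝ)
    (hab : ∀ σ, a σ ≤ b σ ∧ b σ ≤ a σ + 2 * Real.pi)
    (h : 7 * Real.sqrt (minpoly F α).natDegree * Real.log (2 * (minpoly F α).natDegree) ≤
      meanDisc F α a b) :
    Real.log (2 * (minpoly F α).natDegree) / (3 * (minpoly F α).natDegree) ≤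
      NumberField.absLogHeight₁ α := by
  have h1 := h.trans (result F α hα a b hab)
  have hD : (1 : ℝ) ≤ (minpoly F α).natDegree := by
    exact_mod_cast minpoly.natDegree_pos (alg F α)
  have hs : 0 < Real.sqrt (minpoly F α).natDegree := Real.sqrt_pos.2 (by linarith)
  rw [div_le_iff₀ (by positivity)]
  rw [mul_comm 7, mul_assoc] at h1
  have h2 := le_of_mul_le_mul_left h1 hs
  linarith

/-- `β` lies in the division group of `Γ` -/
def InDivisionGroup (Γ : Subgroup (AlgebraicClosure ℚ)ˣ) (β : AlgebraicClosure ℚ) : Prop :=
  ∃ n : ℕ, 0 < n ∧ ∃ g ∈ Γ, β ^ n = (g : AlgebraicClosure ℚ)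

/-- the field generated by the division group of `Γ` -/
noncomputable def divisionField (Γ : Subgroup (AlgebraicClosure ℚ)ˣ) :
    IntermediateField ℚ (AlgebraicClosure ℚ) :=
  IntermediateField.adjoin ℚ {y | InDivisionGroup Γ y}

/-- Rémond's strong inequality for the numbers whose conjugates over a field which contains
`ℚ(Γ_div)` are not equidistributed -/
theorem remond (Γ : Subgroup (AlgebraicClosure ℚ)ˣ) (F : IntermediateField ℚ (AlgebraicClosure ℚ))
    (hF : divisionField Γ ≤ F) (α : AlgebraicClosure ℚ)
    (hα : α ≠ 0) (a b : (conjField F α →+* ℂ) → ℝ)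
    (hab : ∀ σ, a σ ≤ b σ ∧ b σ ≤ a σ + 2 * Real.pi)
    (h : 7 * Real.sqrt (minpoly F α).natDegree * Real.log (2 * (minpoly F α).natDegree) ≤
      meanDisc F α a b) :
    Real.log 2 / (3 * (minpoly (divisionField Γ) α).natDegree) ≤ NumberField.absLogHeight₁ α := by
  have h1 := lower F α hα a b hab h
  have hD : (1 : ℝ) ≤ (minpoly F α).natDegree := by
    exact_mod_cast minpoly.natDegree_pos (alg F α)
  have hle : (minpoly F α).natDegree ≤ (minpoly (divisionField Γ) α).natDegree := by
    let j := (IntermediateField.inclusion hF).toRingHom
    have hne := minpoly.ne_zero (alg (divisionField Γ) α)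
    have h2 : minpoly F α ∣ (minpoly (divisionField Γ) α).map j := by
      apply minpoly.dvd
      rw [Polynomial.aeval_def, Polynomial.eval₂_map]
      exact minpoly.aeval (divisionField Γ) α
    have h3 := Polynomial.natDegree_le_of_dvd h2 (Polynomial.map_ne_zero hne)
    rwa [Polynomial.natDegree_map] at h3
  have hle' : ((minpoly F α).natDegree : ℝ) ≤ (minpoly (divisionField Γ) α).natDegree := by
    exact_mod_cast hle
  refine le_trans ?_ h1
  have h4 : Real.log 2 ≤ Real.log (2 * (minpoly F α).natDegree) :=
    Real.log_le_log (by norm_num) (by linarith)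
  have h5 : 0 ≤ Real.log 2 := Real.log_nonneg (by norm_num)
  exact div_le_div₀ (h5.trans h4) h4 (by positivity) (by linarith)

end Pool.Agent.Results.MP_f61260_nt.RelativeEquidistribution
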