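import Pool.Agent.Helper42.RD.Rel

/-!
# Rémond's inequality in the strong form for zeros of sparse polynomials with asymmetric exponents

Let `F` be any field of algebraic numbers, for example `F = ℚ(Γ_div)` for any group `Γ` of nonzero
algebraic numbers, and let `α ≠ 0` be an algebraic number.

Suppose that `α` is a zero of a nonzero polynomial `g` over `F` with `K` nonzero terms and of degree at
most `N`, but is not a zero of a nonzero polynomial over `F` all of whose exponents are of the form
`N - j` with an exponent `j` of `g`. Then `h(γ α) ≥ log 2 / ((16 K! ² + 1) K N)` for every nonzero `γ`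
in `F` (for instance `γ = 1`, or `γ ∈ Γ_div`).

The main case (`minpoly_gap`): `g` is the minimal polynomial of `α` over `F`, of degree `D`, it has `K`
nonzero terms, and the set of its exponents is not symmetric with respect to `j ↦ D - j`; for instance
`X ^ D + a X ^ m + b` with `0 < m < D`, `D ≠ 2 m` and `a, b ≠ 0`. Then `h(γ α) ≥ c_K / D` (`remond`:
`h(γ α) ≥ c_K / D_Γ(α)` for `F = ℚ(Γ_div)`). So Rémond's inequality holds in the strong form for all
these `α`, for all groups `Γ`, with a constant which depends on `K` only, and the distance of `α` from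
`Γ_div` is at least `c_K / D_Γ(α)`.

## Idea

Let `w_i` be conjugates of `α` over `F`. For all `K` of them, the determinant of the `w_i ^ e_j`, `e_j`
the exponents of `g`, is zero, and for some choice the determinant of the `w_i ^ (- e_j)` is not zero.
If the absolute values of the `w_i ^ e_j` are close to `1` then the second determinant is close to the
complex conjugate of the first one, hence small. With the product formula this gives a lower bound for
the height (the principle of Zagier and of Beukers and Zagier for points on a hypersurface whose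
inverse is not on the hypersurface).
-/

set_option autoImplicit false

namespace Pool.Agent.Results.MP_f61260_nt.SparseRelations

open Polynomial Finset

/-- **Theorem.** Let `F` be a subfield of `ℚ̄` and let `α ≠ 0` be an algebraic number. Let `g` be a
nonzero polynomial over `F` of degree at most `N` with `g(α) = 0`, and let `K` be the number of its
nonzero terms. Suppose that `h(α) ≠ 0` for every nonzero polynomial `h` over `F` such that every
exponent of `h` is of the form `N - j` with an exponent `j` of `g`. Then for all nonzero `γ` in `F` the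
height of `γ α` is at least `log 2 / ((16 K! ² + 1) K N)`. -/
theorem result (F : IntermediateField ℚ (AlgebraicClosure ℚ)) (α : AlgebraicClosure ℚ)
    (hα : α ≠ 0) (g : F[X]) (hg : g ≠ 0) (hgα : aeval α g = 0) (N : ℕ) (hN : g.natDegree ≤ N)
    (hsym : ∀ h : F[X], h ≠ 0 → (∀ i ∈ h.support, ∃ j ∈ g.support, i + j = N) → aeval α h ≠ 0)
    (γ : F) (hγ : γ ≠ 0) :
    Real.log 2 / ((16 * ((#g.support).factorial : ℝ) ^ 2 + 1) * #g.support * N) ≤
      NumberField.absLogHeight₁ ((γ : AlgebraicClosure ℚ) * α) := by
  classical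
  rw [Pool.Agent.H58P.absLogHeight₁_eq]
  have hγ' : (γ : AlgebraicClosure ℚ) ≠ 0 := by
    intro h
    apply hγ
    exact_mod_cast h
  have he : ∀ j : g.support, (j : ℕ) ≤ N := fun j => (le_natDegree_of_mem_supp _ j.2).trans hN
  have hcard : Fintype.card g.support = #g.support := Fintype.card_coe _
  -- dependence
  have hdep : ¬ LinearIndependent F (fun j : g.support => (γ * α : AlgebraicClosure ℚ) ^ (j : ℕ)) := by
    rw [Fintype.not_linearIndependent_iff]
    obtain ⟨j0, hj0⟩ := nonempty_support_iff.2 hg
    refine ⟨fun j => g.coeff j * γ⁻¹ ^ (j : ℕ), ?_, ⟨j0, hj0⟩, ?_⟩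
    · have h1 : ∀ j : g.support, (g.coeff j * γ⁻¹ ^ (j : ℕ)) •
          (γ * α : AlgebraicClosure ℚ) ^ (j : ℕ) = algebraMap F (AlgebraicClosure ℚ) (g.coeff j) *
            α ^ (j : ℕ) := by
        intro j
        rw [Algebra.smul_def, map_mul, map_pow, map_inv₀, mul_pow]
        have e : algebraMap F (AlgebraicClosure ℚ) γ = (γ : AlgebraicClosure ℚ) := rfl
        rw [e, mul_assoc, ← mul_assoc _ ((γ : AlgebraicClosure ℚ) ^ (j : ℕ)), ← mul_pow,
          inv_mul_cancel₀ hγ', one_pow, one_mul]
      rw [sum_congr rfl fun j _ => h1 j, sum_coe_sort g.support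
        (fun j => algebraMap F (AlgebraicClosure ℚ) (g.coeff j) * α ^ j), ← hgα,
        aeval_eq_sum_range' (Nat.lt_succ_self _)]
      rw [← sum_subset (supp_subset_range_natDegree_succ)]
      · exact sum_congr rfl fun j _ => by rw [Algebra.smul_def]
      · intro j _ hj
        rw [notMem_support_iff.1 hj, zero_smul]
    · exact mul_ne_zero (mem_support_iff.1 hj0) (pow_ne_zero _ (inv_ne_zero hγ))
  -- independence
  have hind : LinearIndependent F
      (fun j : g.support => (γ * α : AlgebraicClosure ℚ)⁻¹ ^ (j : ℕ)) := by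
    rw [Fintype.linearIndependent_iff]
    intro c hc j0
    by_contra hcj
    set h : F[X] := ∑ j : g.support, C (c j * γ⁻¹ ^ (j : ℕ)) * X ^ (N - (j : ℕ)) with hh
    have hcoef : ∀ i, h.coeff i = ∑ j : g.support,
        if i = N - (j : ℕ) then c j * γ⁻¹ ^ (j : ℕ) else 0 := by
      intro i
      rw [hh, finsetSum_coeff]
      exact sum_congr rfl fun j _ => by rw [coeff_C_mul_X_pow]
    have hcoef0 : h.coeff (N - (j0 : ℕ)) = c j0 * γ⁻¹ ^ (j0 : ℕ) := by
      rw [hcoef, sum_eq_single j0]
      · rw [if_pos rfl]
      · intro b _ hb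
        rw [if_neg]
        intro h1
        apply hb
        apply Subtype.ext
        have := he b
        have := he j0
        omega
      · intro h1
        exact absurd (mem_univ _) h1
    have hne : h ≠ 0 := by
      intro h1
      rw [h1, coeff_zero] at hcoef0
      exact mul_ne_zero hcj (pow_ne_zero _ (inv_ne_zero hγ)) hcoef0.symm
    refine hsym h hne ?_ ?_
    · intro i hi
      rw [mem_support_iff, hcoef] at hi
      obtain ⟨j, -, hj⟩ := exists_ne_zero_of_sum_ne_zero hi
      have h1 : i = N - (j : ℕ) := by
        by_contra hcon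
        rw [if_neg hcon] at hj
        exact hj rfl
      exact ⟨j, j.2, by have := he j; omega⟩
    · have h1 : aeval α h = α ^ N * ∑ j : g.support, c j •
          (γ * α : AlgebraicClosure ℚ)⁻¹ ^ (j : ℕ) := by
        rw [hh, map_sum, mul_sum]
        refine sum_congr rfl fun j _ => ?_
        rw [map_mul, aeval_C, map_pow, aeval_X, Algebra.smul_def, map_mul, map_pow, map_inv₀,
          pow_sub₀ α hα (he j), mul_inv, mul_pow, inv_pow, inv_pow]
        have e : algebraMap F (AlgebraicClosure ℚ) γ = (γ : AlgebraicClosure ℚ) := rfl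
        rw [e, inv_pow]
        ring
      rw [h1, hc, mul_zero]
  have key := Pool.Agent.Helper42.RD.relation_gap F (mul_ne_zero hγ' hα)
    (fun j : g.support => (j : ℕ)) he hdep hind
  rw [hcard] at key
  have hK0 : (0 : ℝ) ≤ #g.support := Nat.cast_nonneg _
  have hN0 : (0 : ℝ) ≤ N := Nat.cast_nonneg _
  rcases (mul_nonneg (mul_nonneg (by positivity :
    (0 : ℝ) ≤ 16 * ((#g.support).factorial : ℝ) ^ 2 + 1) hK0) hN0).eq_or_lt with h0 | h0
  · rw [← h0, zero_mul] at key
    have := Real.log_pos (show (1 : ℝ) < 2 by norm_num)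
    linarith
  · rw [div_le_iff₀ h0]
    linarith

/-- The case of the minimal polynomial: if the set of its exponents is not symmetric, then
`h(γ α) ≥ log 2 / ((16 K! ² + 1) K D)`, where `D` is the degree of `α` over `F`. -/
theorem minpoly_gap (F : IntermediateField ℚ (AlgebraicClosure ℚ)) (α : AlgebraicClosure ℚ)
    (hα : α ≠ 0) (hsym : ∃ i ∈ (minpoly F α).support, ∀ j ∈ (minpoly F α).support,
      i + j ≠ (minpoly F α).natDegree) (γ : F) (hγ : γ ≠ 0) :
    Real.log 2 / ((16 * ((#(minpoly F α).support).factorial : ℝ) ^ 2 + 1) *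
      #(minpoly F α).support * (minpoly F α).natDegree) ≤
      NumberField.absLogHeight₁ ((γ : AlgebraicClosure ℚ) * α) := by
  have hint := Pool.Agent.Helper42.RD.alg F α
  refine result F α hα (minpoly F α) (minpoly.ne_zero hint) (minpoly.aeval F α) _ le_rfl ?_ γ hγ
  intro h hh0 hsupp hhα
  obtain ⟨i, hi, hij⟩ := hsym
  obtain ⟨q, hq⟩ := minpoly.dvd F α hhα
  have hdeg : h.natDegree ≤ (minpoly F α).natDegree := by
    obtain ⟨j, -, hj⟩ := hsupp _ (natDegree_mem_support_of_nonzero hh0)
    omega
  have hq0 : q ≠ 0 := by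
    rintro rfl
    exact hh0 (by rw [hq, mul_zero])
  have hqd : q.natDegree = 0 := by
    have h1 := natDegree_mul (minpoly.ne_zero hint) hq0
    rw [← hq] at h1
    omega
  obtain ⟨c, hc⟩ := natDegree_eq_zero.1 hqd
  have hc0 : c ≠ 0 := by
    rintro rfl
    exact hq0 (by rw [← hc, map_zero])
  have hi' : i ∈ h.support := by
    rw [mem_support_iff, hq, ← hc, coeff_mul_C]
    exact mul_ne_zero (mem_support_iff.1 hi) hc0
  obtain ⟨j, hj, hj2⟩ := hsupp i hi'
  exact hij j hj hj2

/-- `β` lies in the division group of `Γ` -/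
def InDivisionGroup (Γ : Subgroup (AlgebraicClosure ℚ)ˣ) (β : AlgebraicClosure ℚ) : Prop :=
  ∃ n : ℕ, 0 < n ∧ ∃ g ∈ Γ, β ^ n = (g : AlgebraicClosure ℚ)

/-- the field generated by the division group of `Γ` -/
noncomputable def divisionField (Γ : Subgroup (AlgebraicClosure ℚ)ˣ) :
    IntermediateField ℚ (AlgebraicClosure ℚ) :=
  IntermediateField.adjoin ℚ {y | InDivisionGroup Γ y}

/-- Rémond's inequality in the strong form, also for the quotients `α / γ` with `γ` in the division
group, for the `α` whose minimal polynomial over `ℚ(Γ_div)` has `K` terms with asymmetric exponents -/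
theorem remond (Γ : Subgroup (AlgebraicClosure ℚ)ˣ) (α : AlgebraicClosure ℚ) (hα : α ≠ 0)
    (hsym : ∃ i ∈ (minpoly (divisionField Γ) α).support,
      ∀ j ∈ (minpoly (divisionField Γ) α).support, i + j ≠ (minpoly (divisionField Γ) α).natDegree)
    (γ : AlgebraicClosure ℚ) (hγ : γ ≠ 0) (hγΓ : InDivisionGroup Γ γ) :
    Real.log 2 / ((16 * ((#(minpoly (divisionField Γ) α).support).factorial : ℝ) ^ 2 + 1) *
      #(minpoly (divisionField Γ) α).support * (minpoly (divisionField Γ) α).natDegree) ≤
      NumberField.absLogHeight₁ (α / γ) := by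
  have hmem : γ⁻¹ ∈ divisionField Γ :=
    inv_mem (IntermediateField.subset_adjoin ℚ _ hγΓ)
  have h := minpoly_gap (divisionField Γ) α hα hsym ⟨γ⁻¹, hmem⟩ (by
    intro h
    exact inv_ne_zero hγ (congrArg Subtype.val h))
  rwa [show ((⟨γ⁻¹, hmem⟩ : divisionField Γ) : AlgebraicClosure ℚ) * α = α / γ by
    rw [div_eq_inv_mul]] at h

end Pool.Agent.Results.MP_f61260_nt.SparseRelations
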